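import Pool.Agent.Helper234.BrownZE

open scoped BoundedContinuousFunction
open Pool.Agent.Helper234.Brown

namespace Pool.Agent.Results.MP_85fa26_an.NoIsometricAffineMapBothNorms

universe u v w

/-- Supporting fact: for the 1-norm distance the metric axiom of a convex-like structure holds
(stated for means of two points). -/
theorem oneNorm_convexLike {R : Type u} [CStarAlgebra R] (t : PTr R) (hR : IsHyperfinite t)
    (U : Ultrafilter ℕ) (hU : (U : Filter ℕ) ≤ Filter.cofinite) {M : Type v} [CStarAlgebra M]
    (a : ℕ → M) (ha : ∀ n, ‖a n‖ ≤ 1) (π ρ σ σ' : UHom M t U) :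
    ∃ m m' : UHom M t U, IsConvexComb t U ![1/2, 1/2] ![π, σ] m ∧
      IsConvexComb t U ![1/2, 1/2] ![ρ, σ'] m' ∧
      brownDist1 t U a m m' ≤ (brownDist1 t U a π ρ + brownDist1 t U a σ σ') / 2 :=
  convex_like_axiom hR hU a ha π ρ σ σ'

/-- Let `R` be the hyperfinite II_1 factor with trace `t` and `U` a free ultrafilter on the natural
numbers. There is a separable II_1 factor `M` that embeds in the tracial ultrapower of `R` such that,
whatever sequence `a` of contractions generating `M` is used to define the distances,
(i) no affine map from the space of homomorphisms modulo unitary equivalence to a real normed space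
is isometric for the distance of the problem, and
(ii) no affine map from it to a strictly convex real normed space is isometric for the distance in
which the 2-norm is replaced by the 1-norm. -/
theorem result {R : Type u} [CStarAlgebra R] (t : PTr R) (hR : IsHyperfinite t)
    (U : Ultrafilter ℕ) (hU : (U : Filter ℕ) ≤ Filter.cofinite) :
    ∃ (M : Type u) (_ : CStarAlgebra M) (s : PTr M), IsIIOneFactor s ∧ IsSep s ∧
      EmbedsInUltrapower s t U ∧
      ∀ a : ℕ → M, (∀ n, ‖a n‖ ≤ 1) → Generates s a →
        (∀ (B : Type w) (_ : NormedAddCommGroup B) (_ : NormedSpace ℝ B) (Φ : HomSpace M t U → B),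
          IsAffine Φ → ¬ IsIsometric a Φ) ∧
        (∀ (B : Type w) (_ : NormedAddCommGroup B) (_ : NormedSpace ℝ B), StrictConvexSpace ℝ B →
          ∀ Φ : HomSpace M t U → B, IsAffine Φ → ¬ IsIsometric1 a Φ) :=
  main1 hR hU

end Pool.Agent.Results.MP_85fa26_an.NoIsometricAffineMapBothNorms
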